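import Pool.Agent.Run7.h373.CK.Stm

/-!
# Pieces REA0 and REA1 of project CK (helper373): real roots
-/

set_option autoImplicit false

namespace Pool.Agent.Run7.h270.CK

open Polynomial Filter Topology Pool.Agent.Run7.h373.CK

theorem exists_pos_le {ι : Type*} [Finite ι] (f : ι → ℝ) (h : ∀ i, 0 < f i) :
    ∃ d : ℝ, 0 < d ∧ ∀ i, d ≤ f i := by
  rcases isEmpty_or_nonempty ι with he | hne
  · exact ⟨1, one_pos, fun i => (he.false i).elim⟩
  · obtain ⟨i, hi⟩ := Finite.exists_min f
    exact ⟨f i, h i, hi⟩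

theorem t_REA0 : S_REA0 := by
  intro A hA hd he
  set P : ℝ[X] := A.map (algebraMap ℤ ℝ) with hP
  have hPm : P.Monic := hA.map _
  have hPd : P.natDegree = A.natDegree := hA.natDegree_map _
  have hev : ∀ x : ℝ, aeval x A = P.eval x := by
    intro x
    rw [hP, eval_map_algebraMap]
  have h1 : Tendsto (fun x : ℝ => P.eval x) atTop atTop := by
    apply P.tendsto_atTop_of_leadingCoeff_nonneg
    · rw [← natDegree_pos_iff_degree_pos, hPd]
      exact hd
    · rw [hPm.leadingCoeff]
      exact zero_le_one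
  have hX : (-X : ℝ[X]).natDegree = 1 := by rw [natDegree_neg, natDegree_X]
  have h2 : Tendsto (fun x : ℝ => (P.comp (-X)).eval x) atTop atTop := by
    apply (P.comp (-X)).tendsto_atTop_of_leadingCoeff_nonneg
    · rw [← natDegree_pos_iff_degree_pos, natDegree_comp, hX, mul_one, hPd]
      exact hd
    · rw [leadingCoeff_comp (by rw [hX]; exact one_ne_zero), hPm.leadingCoeff, leadingCoeff_neg,
        leadingCoeff_X, hPd, he.neg_one_pow, one_mul]
      exact zero_le_one
  have h3 : Tendsto (fun x : ℝ => P.eval x) atBot atTop := by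
    have h4 := h2.comp tendsto_neg_atBot_atTop
    refine h4.congr fun x => ?_
    rw [Function.comp_apply, eval_comp, eval_neg, eval_X, neg_neg]
  have h5 : Tendsto (fun x : ℝ => P.eval x) (cocompact ℝ) atTop := by
    rw [cocompact_eq_atBot_atTop]
    exact h3.sup h1
  obtain ⟨x₀, hx₀⟩ := P.continuous.exists_forall_le h5
  refine ⟨-(P.eval x₀), fun v hv => ?_⟩
  have h6 : {x : ℝ | aeval x A = - v} = ∅ := by
    rw [Set.eq_empty_iff_forall_notMem]
    intro x hx
    have h7 : aeval x A = -v := hx
    rw [hev] at h7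
    have := hx₀ x
    linarith
  rw [h6, Set.ncard_empty]

theorem t_REA1 : S_REA1 := by
  intro n a hn ha
  obtain ⟨A, hA⟩ : ∃ A : ℝ → ℝ, A = fun x => ∏ i, (x - a i) := ⟨_, rfl⟩
  have hcont : Continuous A := by
    rw [hA]
    fun_prop
  have hAa : ∀ i, A (a i) = 0 := by
    intro i
    rw [hA]
    exact Finset.prod_eq_zero (Finset.mem_univ i) (sub_self _)
  obtain ⟨d, hd0, hd⟩ : ∃ d : ℝ, 0 < d ∧ ∀ i j : Fin n, i ≠ j → 2 * d ≤ |a i - a j| := by
    obtain ⟨d, hd0, hd⟩ := exists_pos_le
      (fun p : {p : Fin n × Fin n // p.1 ≠ p.2} => |a p.1.1 - a p.1.2|)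
      (fun p => abs_pos.2 (sub_ne_zero.2 fun h => p.2 (ha h)))
    refine ⟨d / 2, by positivity, fun i j hij => ?_⟩
    have := hd ⟨(i, j), hij⟩
    simp only at this
    linarith
  have hy : ∀ i, ∃ y : ℝ, |y - a i| < d ∧ A y < 0 := by
    intro i
    obtain ⟨R, hR⟩ : ∃ R : ℝ → ℝ, R = fun x => ∏ j ∈ Finset.univ.erase i, (x - a j) := ⟨_, rfl⟩
    have hRc : Continuous R := by
      rw [hR]
      fun_prop
    have hAR : ∀ x, A x = (x - a i) * R x := by
      intro x
      rw [hA, hR]
      exact (Finset.mul_prod_erase _ _ (Finset.mem_univ i)).symm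
    have hR0 : R (a i) ≠ 0 := by
      rw [hR]
      refine Finset.prod_ne_zero_iff.2 fun j hj => ?_
      exact sub_ne_zero.2 fun h => (Finset.ne_of_mem_erase hj) (ha h).symm
    have e1 : ∀ᶠ x in 𝓝 (a i), 0 < R x * R (a i) := by
      have : ContinuousAt (fun x => R x * R (a i)) (a i) := (hRc.mul continuous_const).continuousAt
      exact this.eventually_const_lt (mul_self_pos.2 hR0)
    have e2 : ∀ᶠ x in 𝓝 (a i), |x - a i| < d := by
      have : ContinuousAt (fun x : ℝ => |x - a i|) (a i) := by fun_prop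
      exact this.eventually_lt_const (by simpa using hd0)
    have e3 : Tendsto (fun t : ℝ => a i - t * R (a i)) (𝓝 0) (𝓝 (a i)) := by
      have : Continuous fun t : ℝ => a i - t * R (a i) := by fun_prop
      have h := this.tendsto 0
      rwa [zero_mul, sub_zero] at h
    have e4 := (e3.eventually (e1.and e2)).filter_mono (nhdsWithin_le_nhds (s := Set.Ioi (0:ℝ)))
    obtain ⟨t, ⟨ht1, ht2⟩, ht0⟩ := (e4.and self_mem_nhdsWithin).exists
    have ht0' : 0 < t := ht0
    refine ⟨a i - t * R (a i), ht2, ?_⟩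
    rw [hAR]
    have : (a i - t * R (a i) - a i) * R (a i - t * R (a i)) =
        -(t * (R (a i - t * R (a i)) * R (a i))) := by ring
    rw [this]
    have := mul_pos ht0' ht1
    linarith
  choose y hyd hyA using hy
  obtain ⟨v₀, hv₀, hv₀'⟩ := exists_pos_le (fun i => -A (y i)) (fun i => by linarith [hyA i])
  refine ⟨v₀, hv₀, fun v hv hvv => ?_⟩
  have hroot : ∀ i : Fin n, ∃ x : ℝ, |x - a i| < d ∧ A x = -v := by
    intro i
    have h1 := hv₀' i
    have h4 : -v ∈ Set.uIcc (A (y i)) (A (a i)) := by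
      rw [hAa i]
      exact Set.mem_uIcc.2 (Or.inl ⟨by linarith, by linarith⟩)
    obtain ⟨x, hx, hx'⟩ := intermediate_value_uIcc hcont.continuousOn h4
    refine ⟨x, ?_, hx'⟩
    have h5 := abs_lt.1 (hyd i)
    rw [abs_lt]
    rcases Set.mem_uIcc.1 hx with h | h
    · constructor <;> linarith [h.1, h.2, h5.1, h5.2]
    · constructor <;> linarith [h.1, h.2, h5.1, h5.2]
  choose x hx hxA using hroot
  have hinj : Function.Injective x := by
    intro i j hij
    by_contra hne
    have h1 := hd i j hne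
    have h2 := hx i
    have h3 := hx j
    rw [hij] at h2
    have h4 : |a i - a j| < 2 * d := by
      rw [abs_lt] at h2 h3 ⊢
      constructor <;> linarith [h2.1, h2.2, h3.1, h3.2]
    linarith
  -- the polynomial
  set p : ℝ[X] := (∏ i, (X - C (a i))) + C v with hp
  have hdeg : p.natDegree = n := by
    rw [hp, natDegree_add_C, natDegree_prod_of_monic _ _ fun i _ => monic_X_sub_C _,
      Finset.sum_congr rfl fun i _ => natDegree_X_sub_C _, Finset.sum_const, Finset.card_univ,
      Fintype.card_fin, smul_eq_mul, mul_one]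
  have hp0 : p ≠ 0 := by
    intro h
    rw [h, natDegree_zero] at hdeg
    omega
  have hset : {x : ℝ | ∏ i, (x - a i) = - v} = (p.roots.toFinset : Set ℝ) := by
    ext t
    rw [Finset.mem_coe, Multiset.mem_toFinset, mem_roots hp0, IsRoot.def, hp, eval_add, eval_C,
      eval_prod]
    simp only [eval_sub, eval_X, eval_C, Set.mem_ofPred_eq]
    constructor
    · intro h
      rw [h]
      ring
    · intro h
      linarith
  refine le_antisymm ?_ ?_
  · rw [hset, Set.ncard_coe_finset]
    calc p.roots.toFinset.card ≤ Multiset.card p.roots := Multiset.toFinset_card_le _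
      _ ≤ p.natDegree := card_roots' p
      _ = n := hdeg
  · have hfin : {x : ℝ | ∏ i, (x - a i) = - v}.Finite := by
      rw [hset]
      exact Finset.finite_toSet _
    have h1 : (Set.range x).ncard = n := by
      rw [← Set.image_univ, Set.ncard_image_of_injective _ hinj, Set.ncard_univ, Nat.card_fin]
    refine le_trans (le_of_eq h1.symm) (Set.ncard_le_ncard ?_ hfin)
    rintro _ ⟨i, rfl⟩
    have := hxA i
    rw [hA] at this
    exact this

end Pool.Agent.Run7.h270.CK

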